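import Pool.Agent.H152R3.Lower

open Set Filter Topology ContDiff MeasureTheory

namespace Pool.Agent.Results.MP_89119d_gt.SingularCMC

noncomputable section

/-- Seven-dimensional Euclidean space. -/
abbrev E7 := EuclideanSpace ℝ (Fin 7)
/-- Fourteen-dimensional space `ℝ⁷ × ℝ⁷`. -/
abbrev V := E7 × E7
/-- Fifteen-dimensional space `ℝ⁷ × ℝ⁷ × ℝ`. -/
abbrev X := V × ℝ

/-- The standard basis of `ℝ¹⁵ = ℝ⁷ × ℝ⁷ × ℝ`. -/
def stdVec : (Fin 7 ⊕ Fin 7) ⊕ Unit → X
  | Sum.inl (Sum.inl i) => ((EuclideanSpace.single i 1, 0), 0)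
  | Sum.inl (Sum.inr i) => ((0, EuclideanSpace.single i 1), 0)
  | Sum.inr _ => ((0, 0), 1)

/-- The standard coordinates of a vector in `ℝ¹⁵`. -/
def crd (v : X) : (Fin 7 ⊕ Fin 7) ⊕ Unit → ℝ
  | Sum.inl (Sum.inl i) => v.1.1 i
  | Sum.inl (Sum.inr i) => v.1.2 i
  | Sum.inr _ => v.2

/-- Directional derivative of `F` at `p` in the direction `v`. -/
def dirDeriv (F : X → ℝ) (p v : X) : ℝ := deriv (fun s : ℝ => F (p + s • v)) 0

/-- A smooth Riemannian metric `g` on the connected 15-manifold `M = (U × ℝ)/ℤ`, where `U` is a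
connected open subset of `ℝ¹⁴` and `ℤ` acts by integer translations of the last coordinate `t`.
It is given by its lift to `U × ℝ`, which is periodic in `t`. -/
structure Metric where
  /-- The open set `U`. -/
  U : Set V
  isOpen_U : IsOpen U
  isConnected_U : IsConnected U
  /-- The metric tensor. -/
  g : X → X → X → ℝ
  add : ∀ p u v w, g p (u + v) w = g p u w + g p v w
  smul : ∀ p (c : ℝ) v w, g p (c • v) w = c * g p v w
  symm : ∀ p v w, g p v w = g p w v
  pos : ∀ p : X, p.1 ∈ U → ∀ v : X, v ≠ 0 → 0 < g p v v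
  smooth : ∀ v w, ContDiffOn ℝ ∞ (fun p => g p v w) (U ×ˢ univ)
  periodic : ∀ (w : V) (t : ℝ), g (w, t + 1) = g (w, t)

namespace Metric

variable (M : Metric)

/-- Riemannian volume density `√(det g)` in the standard coordinates. -/
def dens (p : X) : ℝ := √(Matrix.det (Matrix.of fun i j => M.g p (stdVec i) (stdVec j)))

/-- Subsets of `M`: Borel subsets of `U × ℝ` that are periodic in `t`. -/
def IsSubset (E : Set X) : Prop :=
  MeasurableSet E ∧ (∀ p ∈ E, p.1 ∈ M.U) ∧ ∀ (w : V) (t : ℝ), (w, t + 1) ∈ E ↔ (w, t) ∈ E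

/-- Riemannian volume of a subset of `M` (integration over one period of `t`). -/
def vol (E : Set X) : ENNReal :=
  ∫⁻ p in E ∩ (M.U ×ˢ Ico 0 1), ENNReal.ofReal (M.dens p)

/-- Riemannian divergence `(det g)^(-1/2) ∑ ∂ᵢ ((det g)^(1/2) Zⁱ)` of a vector field. -/
def div (Z : X → X) (p : X) : ℝ :=
  (M.dens p)⁻¹ * ∑ i, dirDeriv (fun q => M.dens q * crd (Z q) i) p (stdVec i)

/-- Admissible fields: `C¹` vector fields on `M` with compact support and `|Z|_g ≤ 1`. -/
structure IsTest (Z : X → X) : Prop where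
  contDiff : ContDiff ℝ 1 Z
  periodic : ∀ (w : V) (t : ℝ), Z (w, t + 1) = Z (w, t)
  support : ∃ K : Set V, IsCompact K ∧ K ⊆ M.U ∧ ∀ p : X, p.1 ∉ K → Z p = 0
  norm_le : ∀ p : X, p.1 ∈ M.U → M.g p (Z p) (Z p) ≤ 1

/-- The perimeter: supremum of `∫_E div Z dvol` over all admissible fields. -/
def perimeter (E : Set X) : ENNReal :=
  ⨆ (Z : X → X) (_ : M.IsTest Z),
    ENNReal.ofReal (∫ p in E ∩ (M.U ×ˢ Ico 0 1), M.div Z p * M.dens p)

/-- Isoperimetric regions of `M`. -/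
structure IsIsoperimetric (Ω : Set X) : Prop where
  isSubset : M.IsSubset Ω
  vol_pos : 0 < M.vol Ω
  vol_lt : M.vol Ω < M.vol (M.U ×ˢ univ)
  perimeter_lt : M.perimeter Ω < ⊤
  minimal : ∀ E : Set X, M.IsSubset E → M.vol E = M.vol Ω → M.perimeter Ω ≤ M.perimeter E

/-- Completeness of `M`: a curve of speed at most one defined on `[0, T)` with `T` finite stays in
a compact subset of `M`. -/
def IsComplete : Prop :=
  ∀ (T : ℝ) (γ : ℝ → X), ContinuousOn γ (Ico 0 T) → (∀ s ∈ Ico 0 T, (γ s).1 ∈ M.U) →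
    (∀ s ∈ Ioo 0 T, ∃ v : X, HasDerivAt γ v s ∧ M.g (γ s) v v ≤ 1) →
    ∃ K : Set V, IsCompact K ∧ K ⊆ M.U ∧ ∀ s ∈ Ico 0 T, (γ s).1 ∈ K

/-- `ν` is the unit normal field `∇F / |∇F|` of the level sets of `F` in the open set `O`. -/
def IsUnitNormal (O : Set X) (F : X → ℝ) (ν : X → X) : Prop :=
  ∀ q ∈ O, M.g q (ν q) (ν q) = 1 ∧ ∃ c > 0, ∀ v, M.g q (ν q) v = c * dirDeriv F q v

/-- Near `p` the region `Ω` is a smooth sublevel set `{F < 0}` whose boundary `{F = 0}` has unit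
normal `ν` (the normalised gradient of `F`, pointing out of `Ω`) and constant mean curvature
`div ν = H`. -/
def HasMeanCurvature (Ω : Set X) (p : X) (H : ℝ) : Prop :=
  ∃ (O : Set X) (F : X → ℝ) (ν : X → X), IsOpen O ∧ p ∈ O ∧ O ⊆ M.U ×ˢ univ ∧
    ContDiffOn ℝ ∞ F O ∧ (∀ q ∈ O, q ∈ Ω ↔ F q < 0) ∧ M.IsUnitNormal O F ν ∧
    ∀ q ∈ O, F q = 0 → M.div ν q = H

end Metric

/-- `p` is a regular point of the boundary of `Ω`: near `p` the boundary is a smooth embedded
hypersurface, given by a smooth function with nonvanishing differential. -/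
def IsRegularPoint (Ω : Set X) (p : X) : Prop :=
  ∃ (O : Set X) (F : X → ℝ), IsOpen O ∧ p ∈ O ∧ ContDiffOn ℝ ∞ F O ∧
    (∀ q ∈ O, ∃ v, dirDeriv F q v ≠ 0) ∧ ∀ q ∈ O, q ∈ frontier Ω ↔ F q = 0

/-! ### The metric -/

/-- Euclidean inner product of the first seven coordinates. -/
def I1 : X →L[ℝ] X →L[ℝ] ℝ :=
  (innerSL ℝ (E := E7)).bilinearComp
    ((ContinuousLinearMap.fst ℝ E7 E7).comp (ContinuousLinearMap.fst ℝ V ℝ))
    ((ContinuousLinearMap.fst ℝ E7 E7).comp (ContinuousLinearMap.fst ℝ V ℝ))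
/-- Euclidean inner product of the next seven coordinates. -/
def I2 : X →L[ℝ] X →L[ℝ] ℝ :=
  (innerSL ℝ (E := E7)).bilinearComp
    ((ContinuousLinearMap.snd ℝ E7 E7).comp (ContinuousLinearMap.fst ℝ V ℝ))
    ((ContinuousLinearMap.snd ℝ E7 E7).comp (ContinuousLinearMap.fst ℝ V ℝ))
/-- Product of the last coordinates. -/
def I3 : X →L[ℝ] X →L[ℝ] ℝ :=
  (ContinuousLinearMap.mul ℝ ℝ).bilinearComp (ContinuousLinearMap.snd ℝ V ℝ)
    (ContinuousLinearMap.snd ℝ V ℝ)

/-- The diagonal form `a (|dX|² + |dY|²) + b dt²`. -/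
def dform (a b : ℝ) : X →L[ℝ] X →L[ℝ] ℝ := a • (I1 + I2) + b • I3

lemma dform_apply (a b : ℝ) (v w : X) : dform a b v w =
    a * (inner ℝ v.1.1 w.1.1 + inner ℝ v.1.2 w.1.2) + b * (v.2 * w.2) := by
  simp [dform, I1, I2, I3, ContinuousLinearMap.bilinearComp_apply]
  ring

lemma det_dform {a b : ℝ} (ha : 0 ≤ a) :
    √(Matrix.det (Matrix.of fun i j => dform a b (stdVec i) (stdVec j))) = a ^ 7 * √b := by
  have h1 : (Matrix.of fun i j => dform a b (stdVec i) (stdVec j)) =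
      Matrix.diagonal (fun i : (Fin 7 ⊕ Fin 7) ⊕ Unit => match i with
        | Sum.inl _ => a
        | Sum.inr _ => b) := by
    ext i j
    rw [Matrix.of_apply, dform_apply]
    rcases i with (i | i) | i <;> rcases j with (j | j) | j <;>
      simp [stdVec, Matrix.diagonal_apply, EuclideanSpace.inner_single_left]
  rw [h1, Matrix.det_diagonal, Fintype.prod_sum_type, Fintype.prod_sum_type]
  simp only [Finset.prod_const, Finset.card_univ, Fintype.card_fin, Finset.univ_unique,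
    Finset.card_singleton, pow_one]
  rw [Real.sqrt_mul (by positivity), Real.sqrt_mul_self (by positivity)]

variable {ε C : ℝ} {σ : V → ℝ}

/-- The warping function. -/
def phi (σ : V → ℝ) (w : V) : ℝ := H152R3.wt w / σ w ^ 13

lemma phi_pos (hσ : H152R3.Good ε C σ) {w : V} (h : w ∈ H152R3.U) : 0 < phi σ w := by
  have h1 := hσ.pos h
  have h2 := H152R3.wt_pos w
  unfold phi
  positivity

lemma cd_sigma (hσ : H152R3.Good ε C σ) {w : V} (h : w ∈ H152R3.U) : ContDiffAt ℝ ∞ σ w :=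
  (hσ.smooth w h).contDiffAt (H152R3.isOpen_U.mem_nhds h)

lemma cd_phi (hσ : H152R3.Good ε C σ) {w : V} (h : w ∈ H152R3.U) : ContDiffAt ℝ ∞ (phi σ) w :=
  (H152R3.cd_wt h).div ((cd_sigma hσ h).pow 13) (pow_ne_zero _ (hσ.pos h).ne')

lemma isConnected_U : IsConnected H152R3.U := by
  have h1 : H152R3.U = (univ : Set E7) ×ˢ Metric.ball (0 : E7) (1 / 2) := by
    ext w
    simp [H152R3.U]
  rw [h1]
  refine ⟨⟨(0, 0), by simp⟩, ?_⟩
  exact (convex_univ.prod (convex_ball _ _)).isPreconnected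

/-- The warped metric `σ² |dw|² + φ² dt²`. -/
def metricOf (hσ : H152R3.Good ε C σ) : Metric where
  U := H152R3.U
  isOpen_U := H152R3.isOpen_U
  isConnected_U := isConnected_U
  g p v w := dform (σ p.1 ^ 2) (phi σ p.1 ^ 2) v w
  add p u v w := by rw [map_add]; rfl
  smul p c v w := by rw [map_smul]; rfl
  smooth v w := by
    intro p hp
    have h1 : ContDiffAt ℝ ∞ (fun p : X => σ p.1 ^ 2) p :=
      (ContDiffAt.comp (g := σ) (f := fun p : X => p.1) p (cd_sigma hσ hp.1) contDiffAt_fst).pow 2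
    have h2 : ContDiffAt ℝ ∞ (fun p : X => phi σ p.1 ^ 2) p :=
      (ContDiffAt.comp (g := phi σ) (f := fun p : X => p.1) p (cd_phi hσ hp.1) contDiffAt_fst).pow 2
    simp only [dform_apply]
    exact ((h1.mul contDiffAt_const).add (h2.mul contDiffAt_const)).contDiffWithinAt
  symm p v w := by
    rw [dform_apply, dform_apply, real_inner_comm, real_inner_comm w.1.2, mul_comm v.2]
  pos p hp v hv := by
    rw [dform_apply, real_inner_self_eq_norm_sq, real_inner_self_eq_norm_sq]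
    have h1 := hσ.pos hp
    have h2 := phi_pos hσ hp
    by_contra hcon
    push Not at hcon
    apply hv
    have e1 : ‖v.1.1‖ = 0 := by
      by_contra h
      have : 0 < ‖v.1.1‖ := lt_of_le_of_ne (norm_nonneg _) (Ne.symm h)
      have : 0 < σ p.1 ^ 2 * (‖v.1.1‖ ^ 2 + ‖v.1.2‖ ^ 2) + phi σ p.1 ^ 2 * (v.2 * v.2) := by
        have := mul_self_nonneg v.2
        positivity
      linarith
    have e2 : ‖v.1.2‖ = 0 := by
      by_contra h
      have : 0 < ‖v.1.2‖ := lt_of_le_of_ne (norm_nonneg _) (Ne.symm h)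
      have : 0 < σ p.1 ^ 2 * (‖v.1.1‖ ^ 2 + ‖v.1.2‖ ^ 2) + phi σ p.1 ^ 2 * (v.2 * v.2) := by
        have := mul_self_nonneg v.2
        positivity
      linarith
    have e3 : v.2 = 0 := by
      by_contra h
      have h3 : 0 < v.2 * v.2 := mul_self_pos.2 h
      have : 0 < σ p.1 ^ 2 * (‖v.1.1‖ ^ 2 + ‖v.1.2‖ ^ 2) + phi σ p.1 ^ 2 * (v.2 * v.2) := by
        positivity
      linarith
    rw [norm_eq_zero] at e1 e2
    exact Prod.ext (Prod.ext e1 e2) e3
  periodic _ _ := rfl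

variable (hσ : H152R3.Good ε C σ)

lemma g_self (p v : X) : (metricOf hσ).g p v v =
    σ p.1 ^ 2 * H152R3.nsq v.1 + phi σ p.1 ^ 2 * v.2 ^ 2 := by
  change dform (σ p.1 ^ 2) (phi σ p.1 ^ 2) v v = _
  rw [dform_apply, real_inner_self_eq_norm_sq, real_inner_self_eq_norm_sq]
  unfold H152R3.nsq
  ring

lemma dens_eq {p : X} (hp : p.1 ∈ H152R3.U) : (metricOf hσ).dens p = H152R3.wt p.1 * σ p.1 := by
  have h1 := hσ.pos hp
  have h2 := phi_pos hσ hp
  change √(Matrix.det (Matrix.of fun i j => dform (σ p.1 ^ 2) (phi σ p.1 ^ 2) (stdVec i) (stdVec j))) = _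
  rw [det_dform (by positivity), Real.sqrt_sq h2.le]
  unfold phi
  field_simp

lemma dens_pos {p : X} (hp : p.1 ∈ H152R3.U) : 0 < (metricOf hσ).dens p := by
  rw [dens_eq hσ hp]
  exact mul_pos (H152R3.wt_pos _) (hσ.pos hp)

lemma restrict_fd {E : Set X} (hE : MeasurableSet E) :
    (volume : Measure X).restrict (E ∩ (H152R3.U ×ˢ Ico 0 1)) = H152R3.nu.restrict E := by
  rw [← H152R3.nu_eq, Measure.restrict_restrict hE]

lemma ae_U : ∀ᵐ p : X ∂H152R3.nu, p.1 ∈ H152R3.U := by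
  filter_upwards [H152R3.ae_nu_W] with p hp
  exact H152R3.W_sub_U hp

lemma vol_eq {E : Set X} (hE : MeasurableSet E) : (metricOf hσ).vol E =
    ∫⁻ p in E, ENNReal.ofReal (H152R3.wt p.1 * σ p.1) ∂H152R3.nu := by
  change ∫⁻ p in E ∩ (H152R3.U ×ˢ Ico 0 1), ENNReal.ofReal ((metricOf hσ).dens p) = _
  rw [restrict_fd hE]
  apply lintegral_congr_ae
  filter_upwards [ae_restrict_of_ae ae_U] with p hp
  rw [dens_eq hσ hp]

/-- Coordinates as a linear equivalence. -/
def crdL : X ≃ₗ[ℝ] ((Fin 7 ⊕ Fin 7) ⊕ Unit → ℝ) where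
  toFun := crd
  map_add' u v := by
    funext i
    rcases i with (i | i) | i <;> simp [crd]
  map_smul' c v := by
    funext i
    rcases i with (i | i) | i <;> simp [crd]
  invFun f := ((WithLp.toLp 2 fun i => f (Sum.inl (Sum.inl i)),
    WithLp.toLp 2 fun i => f (Sum.inl (Sum.inr i))), f (Sum.inr ()))
  left_inv v := by
    refine Prod.ext (Prod.ext ?_ ?_) ?_
    · ext i; simp [crd]
    · ext i; simp [crd]
    · simp [crd]
  right_inv f := by
    funext i
    rcases i with (i | i) | i <;> simp [crd]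

lemma trace_crd (L : X →ₗ[ℝ] X) : LinearMap.trace ℝ X L = ∑ i, crd (L (stdVec i)) i := by
  let b := Module.Basis.ofEquivFun crdL
  have hb : ∀ i, b i = stdVec i := by
    intro i
    apply crdL.injective
    have h1 : crdL (b i) = Pi.single i 1 := by
      simp [b]
    rw [h1]
    funext j
    change _ = crd (stdVec i) j
    rcases i with (i | i) | i <;> rcases j with (j | j) | j <;>
      simp [crd, stdVec, Pi.single_apply]
  rw [LinearMap.trace_eq_matrix_trace ℝ b]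
  unfold Matrix.trace
  apply Finset.sum_congr rfl
  intro i _
  rw [Matrix.diag_apply, LinearMap.toMatrix_apply, hb]
  rfl

lemma hasDerivAt_line {F : X → X} {p : X} (hF : DifferentiableAt ℝ F p) (v : X) :
    HasDerivAt (fun s : ℝ => F (p + s • v)) (fderiv ℝ F p v) 0 := by
  have h1 : HasDerivAt (fun s : ℝ => p + s • v) v 0 := by
    have := ((hasDerivAt_id (0 : ℝ)).smul_const v).const_add p
    exact HasDerivAt.congr_deriv this (by simp)
  have h2 : HasFDerivAt F (fderiv ℝ F p) (p + (0 : ℝ) • v) := by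
    rw [zero_smul, add_zero]; exact hF.hasFDerivAt
  exact h2.comp_hasDerivAt (0 : ℝ) h1

lemma dirDeriv_eq {F : X → ℝ} {p : X} (hF : DifferentiableAt ℝ F p) (v : X) :
    dirDeriv F p v = fderiv ℝ F p v := by
  have h1 : HasDerivAt (fun s : ℝ => p + s • v) v 0 := by
    have := ((hasDerivAt_id (0 : ℝ)).smul_const v).const_add p
    exact HasDerivAt.congr_deriv this (by simp)
  have h2 : HasFDerivAt F (fderiv ℝ F p) (p + (0 : ℝ) • v) := by
    rw [zero_smul, add_zero]; exact hF.hasFDerivAt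
  exact (h2.comp_hasDerivAt (0 : ℝ) h1).deriv

lemma sum_dirDeriv {F : X → X} {p : X} (hF : DifferentiableAt ℝ F p) :
    ∑ i, dirDeriv (fun q => crd (F q) i) p (stdVec i) =
      LinearMap.trace ℝ X (fderiv ℝ F p : X →ₗ[ℝ] X) := by
  rw [trace_crd]
  apply Finset.sum_congr rfl
  intro i _
  have h1 := hasDerivAt_line hF (stdVec i)
  let l0 : X →ₗ[ℝ] ℝ := (LinearMap.proj i).comp crdL.toLinearMap
  let l1 : X →L[ℝ] ℝ := LinearMap.toContinuousLinearMap l0
  have h2 : HasDerivAt (fun s : ℝ => l1 (F (p + s • stdVec i)))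
      (l1 (fderiv ℝ F p (stdVec i))) 0 := l1.hasFDerivAt.comp_hasDerivAt (0 : ℝ) h1
  exact h2.deriv

/-- The weighted field `dens • Z` near points of the domain. -/
lemma div_mul_dens {Z : X → X} {p : X} (hp : p.1 ∈ H152R3.U)
    (hd : DifferentiableAt ℝ (fun q => (metricOf hσ).dens q • Z q) p) :
    (metricOf hσ).div Z p * (metricOf hσ).dens p =
      LinearMap.trace ℝ X (fderiv ℝ (fun q => (metricOf hσ).dens q • Z q) p : X →ₗ[ℝ] X) := by
  have h := (dens_pos hσ hp).ne'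
  rw [← sum_dirDeriv hd]
  unfold Metric.div
  have h2 : ∀ i, (fun q => (metricOf hσ).dens q * crd (Z q) i)
      = (fun q => crd ((metricOf hσ).dens q • Z q) i) := by
    intro i
    funext q
    have := congrFun (crdL.map_smul ((metricOf hσ).dens q) (Z q)) i
    exact this.symm
  simp_rw [h2]
  field_simp

lemma trace_split (L : X →ₗ[ℝ] X) : LinearMap.trace ℝ X L =
    LinearMap.trace ℝ V ((LinearMap.fst ℝ V ℝ).comp (L.comp (LinearMap.inl ℝ V ℝ)))
      + (L ((0, 0), 1)).2 := by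
  have h1 : L = (L.comp (LinearMap.inl ℝ V ℝ)).comp (LinearMap.fst ℝ V ℝ)
      + (L.comp (LinearMap.inr ℝ V ℝ)).comp (LinearMap.snd ℝ V ℝ) := by
    apply LinearMap.ext
    intro v
    simp only [LinearMap.add_apply, LinearMap.comp_apply, LinearMap.fst_apply, LinearMap.snd_apply]
    rw [← map_add]
    simp
  conv_lhs => rw [h1]
  rw [map_add, LinearMap.trace_comp_comm' (LinearMap.fst ℝ V ℝ),
    LinearMap.trace_comp_comm' (LinearMap.snd ℝ V ℝ)]
  congr 1
  have h2 : (LinearMap.snd ℝ V ℝ).comp (L.comp (LinearMap.inr ℝ V ℝ)) =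
      (LinearMap.id : ℝ →ₗ[ℝ] ℝ).smulRight ((L ((0, 0), 1)).2) := by
    apply LinearMap.ext_ring
    simp
    rfl
  rw [h2, LinearMap.trace_smulRight]
  simp

lemma trace_fst {F : V → V} {p : X} (hF : DifferentiableAt ℝ F p.1) :
    LinearMap.trace ℝ X (fderiv ℝ (fun q : X => ((F q.1, 0) : X)) p : X →ₗ[ℝ] X)
      = H152R3.dv F p.1 := by
  have h1 : HasFDerivAt (fun q : X => ((F q.1, 0) : X))
      (((fderiv ℝ F p.1).comp (ContinuousLinearMap.fst ℝ V ℝ)).prod (0 : X →L[ℝ] ℝ)) p := by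
    have h2 : HasFDerivAt (fun q : X => F q.1) ((fderiv ℝ F p.1).comp (ContinuousLinearMap.fst ℝ V ℝ)) p :=
      hF.hasFDerivAt.comp p hasFDerivAt_fst
    exact h2.prodMk (hasFDerivAt_const (0 : ℝ) p)
  rw [h1.fderiv, trace_split]
  have h3 : (LinearMap.fst ℝ V ℝ).comp (((((fderiv ℝ F p.1).comp
      (ContinuousLinearMap.fst ℝ V ℝ)).prod (0 : X →L[ℝ] ℝ) : X →L[ℝ] X) : X →ₗ[ℝ] X).comp
      (LinearMap.inl ℝ V ℝ)) = (fderiv ℝ F p.1 : V →ₗ[ℝ] V) := by
    apply LinearMap.ext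
    intro v
    simp
  rw [h3]
  simp [H152R3.dv]

lemma differentiableAt_lift {F : V → V} {p : X} (hF : DifferentiableAt ℝ F p.1) :
    DifferentiableAt ℝ (fun q : X => ((F q.1, 0) : X)) p := by
  have h2 : DifferentiableAt ℝ (fun q : X => F q.1) p :=
    DifferentiableAt.comp (g := F) (f := fun q : X => q.1) p hF differentiableAt_fst
  exact h2.prodMk (differentiableAt_const _)

lemma nsq_smul (c : ℝ) (v : V) : H152R3.nsq (c • v) = c ^ 2 * H152R3.nsq v := by
  unfold H152R3.nsq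
  simp only [Prod.smul_fst, Prod.smul_snd, norm_smul, Real.norm_eq_abs, mul_pow, sq_abs]
  ring

lemma perimeter_lower {E : Set X} (hE : (metricOf hσ).IsSubset E)
    (hvol : (metricOf hσ).vol E = (metricOf hσ).vol H152R3.OmR) :
    ENNReal.ofReal (∫ w in H152R3.Om, H152R3.wt w * H152R3.hw w) ≤ (metricOf hσ).perimeter E := by
  apply hσ.lower_bound hE.1
  · rw [← vol_eq hσ hE.1, hvol, vol_eq hσ H152R3.measurableSet_OmR]
  · intro κ hκ hκc hκs hκ0 hκ1
    have hF : ∀ w ∈ H152R3.W, ContDiffAt ℝ 1 (fun w => (σ w)⁻¹ • H152R3.xi w) w := by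
      intro w hw
      have h1 : ContDiffAt ℝ 1 σ w := (cd_sigma hσ (H152R3.W_sub_U hw)).of_le (by simp)
      exact (h1.inv (hσ.pos (H152R3.W_sub_U hw)).ne').smul ((H152R3.cd_xi hw).of_le (by simp))
    have hκF := H152R3.cd_kF hκ hκs hF
    let Z : X → X := fun p => ((κ p.1 • ((σ p.1)⁻¹ • H152R3.xi p.1), 0) : X)
    have hZ : (metricOf hσ).IsTest Z := by
      refine ⟨?_, fun _ _ => rfl, ⟨tsupport κ, hκc, hκs.trans H152R3.W_sub_U, ?_⟩, ?_⟩
      · exact (hκF.comp contDiff_fst).prodMk contDiff_const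
      · intro p hp
        simp only [Z]
        rw [image_eq_zero_of_notMem_tsupport hp, zero_smul]
        rfl
      · intro p hp
        rw [g_self]
        have hs := hσ.pos (hp : p.1 ∈ H152R3.U)
        simp only [Z]
        rw [nsq_smul, nsq_smul]
        by_cases hW : p.1 ∈ H152R3.W
        · rw [H152R3.nsq_xi hW]
          have h1 := hκ0 p.1
          have h2 := hκ1 p.1
          have h3 : κ p.1 ^ 2 ≤ 1 := pow_le_one₀ h1 h2
          have h4 : σ p.1 ^ 2 * (κ p.1 ^ 2 * ((σ p.1)⁻¹ ^ 2 * 1)) + phi σ p.1 ^ 2 * 0 ^ 2 = κ p.1 ^ 2 := by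
            field_simp
            ring
          rw [h4]; exact h3
        · have h1 : κ p.1 = 0 := image_eq_zero_of_notMem_tsupport (fun h => hW (hκs h))
          rw [h1]
          norm_num
    have heq : ∫ p in E, H152R3.dv (fun w => κ w • (H152R3.wt w • H152R3.xi w)) p.1 ∂H152R3.nu
        = ∫ p in E ∩ (H152R3.U ×ˢ Ico 0 1), (metricOf hσ).div Z p * (metricOf hσ).dens p := by
      rw [restrict_fd hE.1]
      apply integral_congr_ae
      filter_upwards [ae_restrict_of_ae H152R3.ae_nu_W] with p hp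
      have h1 : (fun q => (metricOf hσ).dens q • Z q) =ᶠ[𝓝 p]
          (fun q : X => (((fun w => κ w • (H152R3.wt w • H152R3.xi w)) q.1, 0) : X)) := by
        have hO : ∀ᶠ q : X in 𝓝 p, q.1 ∈ H152R3.U :=
          continuous_fst.continuousAt.eventually (H152R3.isOpen_U.mem_nhds (H152R3.W_sub_U hp))
        filter_upwards [hO] with q hq
        rw [dens_eq hσ hq]
        have hs := (hσ.pos hq).ne'
        simp only [Z, Prod.smul_mk, smul_zero, smul_smul]
        congr 2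
        field_simp
      have hdF : DifferentiableAt ℝ (fun w => κ w • (H152R3.wt w • H152R3.xi w)) p.1 :=
        (H152R3.cd_kF hκ hκs (fun w hw => H152R3.cd_wxi hw)).differentiable (by simp) p.1
      rw [div_mul_dens hσ (H152R3.W_sub_U hp)
        ((differentiableAt_lift hdF).congr_of_eventuallyEq h1), h1.fderiv_eq]
      exact (trace_fst (F := fun w => κ w • (H152R3.wt w • H152R3.xi w)) hdF).symm
    rw [heq]
    exact le_iSup₂_of_le Z hZ le_rfl

lemma cd_densZ {Z : X → X} (hZ : (metricOf hσ).IsTest Z) :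
    ContDiff ℝ 1 (fun q => (metricOf hσ).dens q • Z q) := by
  obtain ⟨K, hK, hKU, hKZ⟩ := hZ.support
  rw [contDiff_iff_contDiffAt]
  intro p
  by_cases hp : p.1 ∈ H152R3.U
  · have h1 : (metricOf hσ).dens =ᶠ[𝓝 p] fun q => H152R3.wt q.1 * σ q.1 := by
      have hO : ∀ᶠ q : X in 𝓝 p, q.1 ∈ H152R3.U :=
        continuous_fst.continuousAt.eventually (H152R3.isOpen_U.mem_nhds hp)
      filter_upwards [hO] with q hq
      exact dens_eq hσ hq
    have h2 : ContDiffAt ℝ 1 (fun w => H152R3.wt w * σ w) p.1 :=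
      ((H152R3.cd_wt hp).mul (cd_sigma hσ hp)).of_le (by simp)
    have h3 : ContDiffAt ℝ 1 (fun q : X => H152R3.wt q.1 * σ q.1) p :=
      ContDiffAt.comp (g := fun w => H152R3.wt w * σ w) (f := fun q : X => q.1) p h2 contDiffAt_fst
    exact (h3.congr_of_eventuallyEq h1).smul hZ.contDiff.contDiffAt
  · have hpK : p.1 ∉ K := fun h => hp (hKU h)
    have h1 : (fun q => (metricOf hσ).dens q • Z q) =ᶠ[𝓝 p] fun _ => 0 := by
      have hO : ∀ᶠ q : X in 𝓝 p, q.1 ∈ Kᶜ :=
        continuous_fst.continuousAt.eventually (hK.isClosed.isOpen_compl.mem_nhds hpK)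
      filter_upwards [hO] with q hq
      rw [hKZ q hq, smul_zero]
    exact contDiffAt_const.congr_of_eventuallyEq h1

/-- Spatial part of the divergence. -/
def T1 (F : X → X) (p : X) : ℝ :=
  H152R3.trL ((ContinuousLinearMap.fst ℝ V ℝ).comp ((fderiv ℝ F p).comp (ContinuousLinearMap.inl ℝ V ℝ)))
/-- Last part of the divergence. -/
def T2 (F : X → X) (p : X) : ℝ := (fderiv ℝ F p ((0, 0), 1)).2

lemma trace_T (F : X → X) (p : X) :
    LinearMap.trace ℝ X (fderiv ℝ F p : X →ₗ[ℝ] X) = T1 F p + T2 F p := trace_split _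

lemma continuous_T1 {F : X → X} (hF : ContDiff ℝ 1 F) : Continuous (T1 F) := by
  apply H152R3.continuous_trL.comp
  exact continuous_const.clm_comp ((hF.continuous_fderiv (by simp)).clm_comp continuous_const)

lemma continuous_T2 {F : X → X} (hF : ContDiff ℝ 1 F) : Continuous (T2 F) :=
  ((hF.continuous_fderiv (by simp)).clm_apply continuous_const).snd

lemma T1_eq {F : X → X} (hF : ContDiff ℝ 1 F) (w : V) (t : ℝ) :
    T1 F (w, t) = H152R3.dv (fun w' => (F (w', t)).1) w := by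
  have h1 : HasFDerivAt F (fderiv ℝ F (w, t)) (w, t) := (hF.differentiable (by simp) _).hasFDerivAt
  have h2 : HasFDerivAt (fun w' : V => (w', t)) (ContinuousLinearMap.inl ℝ V ℝ) w :=
    hasFDerivAt_prodMk_left w t
  have h3 : HasFDerivAt (fun w' : V => F (w', t)) ((fderiv ℝ F (w, t)).comp (ContinuousLinearMap.inl ℝ V ℝ)) w :=
    h1.comp w h2
  have h4 : HasFDerivAt (fun w' : V => (F (w', t)).1)
      ((ContinuousLinearMap.fst ℝ V ℝ).comp ((fderiv ℝ F (w, t)).comp (ContinuousLinearMap.inl ℝ V ℝ))) w :=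
    hasFDerivAt_fst.comp w h3
  rw [H152R3.dv_eq, h4.fderiv]
  rfl

lemma T2_hasDerivAt {F : X → X} (hF : ContDiff ℝ 1 F) (w : V) (t : ℝ) :
    HasDerivAt (fun s => (F (w, s)).2) (T2 F (w, t)) t := by
  have h1 : HasFDerivAt F (fderiv ℝ F (w, t)) (w, t) := (hF.differentiable (by simp) _).hasFDerivAt
  have h2 : HasDerivAt (fun s : ℝ => ((w, s) : X)) ((0, 0), 1) t :=
    (hasDerivAt_const t w).prodMk (hasDerivAt_id t)
  have h3 : HasDerivAt (fun s : ℝ => F (w, s)) (fderiv ℝ F (w, t) ((0, 0), 1)) t :=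
    h1.comp_hasDerivAt t h2
  exact (hasFDerivAt_snd (𝕜 := ℝ) (p := F (w, t))).comp_hasDerivAt t h3

/-- The measure on the lifted region over one period. -/
def mu1 : Measure X :=
  ((volume : Measure V).restrict H152R3.Om).prod ((volume : Measure ℝ).restrict (Ico 0 1))

lemma mu1_eq : mu1 = (volume : Measure X).restrict (H152R3.Om ×ˢ Ico 0 1) := by
  rw [mu1, Measure.prod_restrict, Measure.volume_eq_prod V ℝ]

lemma finite_Om : (volume : Measure V) H152R3.Om < ⊤ :=
  (measure_mono H152R3.Om_bdd).trans_lt measure_ball_lt_top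

instance instFinOm : IsFiniteMeasure ((volume : Measure V).restrict H152R3.Om) :=
  ⟨by rw [Measure.restrict_apply_univ]; exact finite_Om⟩

instance instFinMu1 : IsFiniteMeasure mu1 := by unfold mu1; infer_instance

lemma integrable_mu1 {T : X → ℝ} (hT : Continuous T) {K : Set V} (hK : IsCompact K)
    (h0 : ∀ p : X, p.1 ∉ K → T p = 0) : Integrable T mu1 := by
  obtain ⟨B, hB⟩ := (hK.prod (isCompact_Icc (a := (0 : ℝ)) (b := 1))).exists_bound_of_continuousOn
    hT.continuousOn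
  apply Integrable.mono' (integrable_const |B|) hT.aestronglyMeasurable
  rw [mu1_eq]
  filter_upwards [ae_restrict_mem (H152R3.isOpen_Om.measurableSet.prod measurableSet_Ico)] with p hp
  by_cases hpK : p.1 ∈ K
  · exact (hB p ⟨hpK, hp.2.1, hp.2.2.le⟩).trans (le_abs_self _)
  · rw [h0 p hpK, norm_zero]; exact abs_nonneg _

lemma cd_slice {F : X → X} (hF : ContDiff ℝ 1 F) (t : ℝ) :
    ContDiff ℝ 1 (fun w : V => (F (w, t)).1) := by
  have h1 : ContDiff ℝ 1 (fun w : V => ((w, t) : X)) := contDiff_id.prodMk contDiff_const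
  have h2 : ContDiff ℝ 1 (fun w : V => F (w, t)) := hF.comp h1
  exact h2.fst

lemma flux_le (hσ : H152R3.Good ε C σ) {F : X → X} (hF : ContDiff ℝ 1 F) {K : Set V}
    (hK : IsCompact K) (hFK : ∀ p : X, p.1 ∉ K → F p = 0)
    (hper : ∀ (w : V), F (w, 1) = F (w, 0))
    (hb : ∀ w ∈ H152R3.W, ∀ t : ℝ, √(H152R3.nsq (F (w, t)).1) ≤ H152R3.wt w) :
    ∫ p, (T1 F p + T2 F p) ∂mu1 ≤ ∫ w in H152R3.Om, H152R3.wt w * H152R3.hw w := by
  have hF0 : ∀ p : X, p.1 ∉ K → F =ᶠ[𝓝 p] fun _ => 0 := by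
    intro p hp
    have hO : ∀ᶠ q : X in 𝓝 p, q.1 ∈ Kᶜ :=
      continuous_fst.continuousAt.eventually (hK.isClosed.isOpen_compl.mem_nhds hp)
    filter_upwards [hO] with q hq
    exact hFK q hq
  have hd0 : ∀ p : X, p.1 ∉ K → fderiv ℝ F p = 0 := by
    intro p hp
    rw [(hF0 p hp).fderiv_eq]
    exact fderiv_const_apply _
  have hi1 : Integrable (T1 F) mu1 := integrable_mu1 (continuous_T1 hF) hK (by
    intro p hp
    unfold T1
    rw [hd0 p hp]
    simp)
  have hi2 : Integrable (T2 F) mu1 := integrable_mu1 (continuous_T2 hF) hK (by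
    intro p hp
    unfold T2
    rw [hd0 p hp]
    simp)
  have e2 : ∫ p, T2 F p ∂mu1 = 0 := by
    rw [mu1, integral_prod _ hi2]
    have h1 : ∀ w : V, ∫ t in Ico (0 : ℝ) 1, T2 F (w, t) = 0 := by
      intro w
      rw [integral_Ico_eq_integral_Ioo, ← integral_Ioc_eq_integral_Ioo,
        ← intervalIntegral.integral_of_le zero_le_one,
        intervalIntegral.integral_eq_sub_of_hasDerivAt (fun t _ => T2_hasDerivAt hF w t)]
      · rw [hper w, sub_self]
      · apply Continuous.intervalIntegrable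
        exact (continuous_T2 hF).comp (by fun_prop)
    simp_rw [h1]
    simp
  have e3 : ∫ p, T1 F p ∂mu1 ≤ ∫ w in H152R3.Om, H152R3.wt w * H152R3.hw w := by
    have hi1' : Integrable (T1 F) (((volume : Measure V).restrict H152R3.Om).prod
      ((volume : Measure ℝ).restrict (Ico 0 1))) := hi1
    rw [mu1, integral_prod_symm _ hi1']
    have h1 : ∀ t : ℝ, ∫ w in H152R3.Om, T1 F (w, t) ≤
        ∫ w in H152R3.Om, H152R3.wt w * H152R3.hw w := by
      intro t
      simp_rw [T1_eq hF]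
      apply hσ.upper (cd_slice hF t)
      · apply HasCompactSupport.intro hK
        intro w hw
        rw [hFK (w, t) hw]
        rfl
      · intro w hw
        exact hb w hw t
    calc ∫ t in Ico (0 : ℝ) 1, ∫ w in H152R3.Om, T1 F (w, t)
        ≤ ∫ _ in Ico (0 : ℝ) 1, (∫ w in H152R3.Om, H152R3.wt w * H152R3.hw w) := by
          apply integral_mono hi1'.integral_prod_right (integrable_const _)
          intro t
          exact h1 t
      _ = _ := by simp
  rw [integral_add hi1 hi2, e2, add_zero]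
  exact e3

lemma perimeter_upper : (metricOf hσ).perimeter H152R3.OmR ≤
    ENNReal.ofReal (∫ w in H152R3.Om, H152R3.wt w * H152R3.hw w) := by
  apply iSup₂_le
  intro Z hZ
  apply ENNReal.ofReal_le_ofReal
  obtain ⟨K, hK, hKU, hKZ⟩ := hZ.support
  have h1 : ∀ᵐ p ∂mu1, p ∈ H152R3.Om ×ˢ Ico (0 : ℝ) 1 := by
    rw [mu1_eq]
    exact ae_restrict_mem (H152R3.isOpen_Om.measurableSet.prod measurableSet_Ico)
  have e1 : ∫ p in H152R3.OmR ∩ (H152R3.U ×ˢ Ico 0 1), (metricOf hσ).div Z p * (metricOf hσ).dens p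
      = ∫ p, (T1 (fun q => (metricOf hσ).dens q • Z q) p
        + T2 (fun q => (metricOf hσ).dens q • Z q) p) ∂mu1 := by
    rw [restrict_fd H152R3.measurableSet_OmR, H152R3.nu_OmR]
    apply integral_congr_ae
    filter_upwards [h1] with p hp
    rw [div_mul_dens hσ hp.1.1 ((cd_densZ hσ hZ).differentiable (by simp) p), trace_T]
  refine e1.trans_le ?_
  apply flux_le hσ (cd_densZ hσ hZ) hK
  · intro p hp
    rw [hKZ p hp, smul_zero]
  · intro w
    have h3 := hZ.periodic w 0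
    rw [zero_add] at h3
    change (metricOf hσ).dens (w, 1) • Z (w, 1) = (metricOf hσ).dens (w, 0) • Z (w, 0)
    rw [h3]
    rfl
  · intro w hw t
    have hU := H152R3.W_sub_U hw
    have h2 := hZ.norm_le (w, t) hU
    rw [g_self] at h2
    have hs := hσ.pos hU
    have hw0 := H152R3.wt_pos w
    change √(H152R3.nsq ((metricOf hσ).dens (w, t) • Z (w, t)).1) ≤ _
    rw [dens_eq hσ (p := (w, t)) hU, Prod.smul_fst, nsq_smul]
    apply Real.sqrt_le_iff.2
    refine ⟨hw0.le, ?_⟩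
    have h3 : 0 ≤ phi σ w ^ 2 * (Z (w, t)).2 ^ 2 := by positivity
    have h4 : σ w ^ 2 * H152R3.nsq (Z (w, t)).1 ≤ 1 := by
      simp only at h2
      linarith
    calc (H152R3.wt w * σ w) ^ 2 * H152R3.nsq (Z (w, t)).1
        = H152R3.wt w ^ 2 * (σ w ^ 2 * H152R3.nsq (Z (w, t)).1) := by ring
      _ ≤ H152R3.wt w ^ 2 * 1 := by gcongr
      _ = _ := by ring

/-! ### Geometry of the boundary -/

lemma mem_frontier_iff {w : V} (hw : w ∈ H152R3.U) :
    w ∈ frontier H152R3.Om ↔ H152R3.P ‖w.1‖ = H152R3.Q ‖w.2‖ := by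
  rw [H152R3.isOpen_Om.frontier_eq]
  constructor
  · rintro ⟨h1, h2⟩
    have hcl : IsClosed {w : V | H152R3.P ‖w.1‖ ≤ H152R3.Q ‖w.2‖} :=
      isClosed_le (H152R3.continuous_P.comp continuous_fst.norm)
        (H152R3.continuous_Q.comp continuous_snd.norm)
    have h3 : closure H152R3.Om ⊆ {w : V | H152R3.P ‖w.1‖ ≤ H152R3.Q ‖w.2‖} :=
      closure_minimal (fun w hw => hw.2.le) hcl
    exact le_antisymm (h3 h1) (not_lt.1 fun h => h2 ⟨hw, h⟩)
  · intro h
    refine ⟨?_, fun h' => h'.2.ne h⟩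
    rcases H152R3.curve_cases hw h with h0 | hW
    · subst h0
      have h1 : Tendsto (fun s : ℝ => ((0, s • EuclideanSpace.single 0 1) : V)) (𝓝[>] 0) (𝓝 0) := by
        have h2 : Continuous (fun s : ℝ => ((0, s • EuclideanSpace.single 0 1) : V)) := by fun_prop
        have h3 := h2.tendsto 0
        simp only [zero_smul] at h3
        exact h3.mono_left nhdsWithin_le_nhds
      apply mem_closure_of_tendsto h1
      filter_upwards [Ioo_mem_nhdsGT (show (0 : ℝ) < 1 / 2 by norm_num)] with s hs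
      have hn : ‖s • (EuclideanSpace.single 0 1 : E7)‖ = s := by
        rw [norm_smul, PiLp.norm_single, Real.norm_eq_abs, abs_of_pos hs.1]; simp
      refine ⟨?_, ?_⟩
      · change ‖s • (EuclideanSpace.single 0 1 : E7)‖ < 1 / 2
        rw [hn]; exact hs.2
      · change H152R3.P ‖(0 : E7)‖ < H152R3.Q ‖s • (EuclideanSpace.single 0 1 : E7)‖
        rw [hn, norm_zero]
        have := H152R3.Q_pos hs.1 hs.2
        unfold H152R3.P
        simpa using this
    · have hp := H152R3.W_pos hW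
      have h1 : Tendsto (fun s : ℝ => (((1 - s) • w.1, w.2) : V)) (𝓝[>] 0) (𝓝 w) := by
        have h2 : Continuous (fun s : ℝ => (((1 - s) • w.1, w.2) : V)) := by fun_prop
        have h3 := h2.tendsto 0
        simp only [sub_zero, one_smul] at h3
        exact h3.mono_left nhdsWithin_le_nhds
      apply mem_closure_of_tendsto h1
      filter_upwards [Ioo_mem_nhdsGT (show (0 : ℝ) < 1 by norm_num)] with s hs
      refine ⟨hw, ?_⟩
      change H152R3.P ‖(1 - s) • w.1‖ < H152R3.Q ‖w.2‖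
      rw [← h, norm_smul, Real.norm_eq_abs, abs_of_pos (by linarith [hs.2])]
      unfold H152R3.P
      have h4 : 0 < s * ‖w.1‖ := mul_pos hs.1 hp.1
      have h5 : (1 - s) * ‖w.1‖ < ‖w.1‖ := by nlinarith
      have h6 : 0 ≤ (1 - s) * ‖w.1‖ := mul_nonneg (by linarith [hs.2]) hp.1.le
      have h7 : ((1 - s) * ‖w.1‖) ^ 2 < ‖w.1‖ ^ 2 := pow_lt_pow_left₀ h5 h6 (by norm_num)
      linarith

lemma mem_frontier_OmR {p : X} : p ∈ frontier H152R3.OmR ↔ p.1 ∈ frontier H152R3.Om := by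
  have : frontier H152R3.OmR = frontier H152R3.Om ×ˢ univ := frontier_prod_univ_eq _
  rw [this]
  simp

lemma Phi_zero_iff {w : V} (h : w ∈ H152R3.W) :
    H152R3.Phi w = 0 ↔ H152R3.P ‖w.1‖ = H152R3.Q ‖w.2‖ := by
  have hp := H152R3.W_pos h
  have h1 : 0 < H152R3.P ‖w.1‖ := by unfold H152R3.P; nlinarith [hp.1, sq_nonneg ‖w.1‖]
  have h2 := H152R3.Q_pos hp.2.1 hp.2.2
  unfold H152R3.Phi
  constructor
  · intro h3
    have h4 : H152R3.P ‖w.1‖ ^ 3 = H152R3.Q ‖w.2‖ ^ 3 := by linarith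
    exact (pow_left_inj₀ h1.le h2.le (by norm_num)).1 h4
  · intro h3
    rw [h3]; ring

lemma dirDeriv_Phi {q : X} (hq : q.1 ∈ H152R3.W) (v : X) :
    dirDeriv (fun q => H152R3.Phi q.1) q v = fderiv ℝ H152R3.Phi q.1 v.1 := by
  have h1 : HasFDerivAt H152R3.Phi (fderiv ℝ H152R3.Phi q.1) q.1 :=
    ((H152R3.cd_Phi hq).differentiableAt (by simp)).hasFDerivAt
  have h2 : HasFDerivAt (fun q : X => H152R3.Phi q.1)
      ((fderiv ℝ H152R3.Phi q.1).comp (ContinuousLinearMap.fst ℝ V ℝ)) q :=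
    h1.comp q hasFDerivAt_fst
  rw [dirDeriv_eq h2.differentiableAt, h2.fderiv]
  simp

lemma regular_of_W {p : X} (hW : p.1 ∈ H152R3.W) : IsRegularPoint H152R3.OmR p := by
  refine ⟨H152R3.W ×ˢ univ, fun q => H152R3.Phi q.1, H152R3.isOpen_W.prod isOpen_univ,
    ⟨hW, mem_univ _⟩, ?_, ?_, ?_⟩
  · intro q hq
    exact (ContDiffAt.comp (g := H152R3.Phi) (f := fun q : X => q.1) q (H152R3.cd_Phi hq.1)
      contDiffAt_fst).contDiffWithinAt
  · intro q hq
    refine ⟨((H152R3.xi q.1, 0) : X), ?_⟩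
    rw [dirDeriv_Phi hq.1, H152R3.fderiv_Phi_xi hq.1]
    exact (H152R3.Nn_pos (H152R3.W_pos hq.1).1 ‖q.1.2‖).ne'
  · intro q hq
    rw [mem_frontier_OmR, mem_frontier_iff (H152R3.W_sub_U hq.1), Phi_zero_iff hq.1]

lemma inner_xi {w : V} (hW : w ∈ H152R3.W) (v : V) :
    inner ℝ (H152R3.xi w).1 v.1 + inner ℝ (H152R3.xi w).2 v.2
      = (H152R3.Nn ‖w.1‖ ‖w.2‖)⁻¹ * fderiv ℝ H152R3.Phi w v := by
  rw [H152R3.fderiv_Phi hW, H152R3.xi_fst, H152R3.xi_snd, inner_smul_left, inner_smul_left]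
  have hp := H152R3.W_pos hW
  have hN := (H152R3.Nn_pos hp.1 ‖w.2‖).ne'
  have h2 := hp.1.ne'
  have h3 := hp.2.1.ne'
  unfold H152R3.c1 H152R3.c2
  simp only [conj_trivial]
  field_simp
  ring

lemma hasMC {p : X} (hW : p.1 ∈ H152R3.W) : (metricOf hσ).HasMeanCurvature H152R3.OmR p 1 := by
  refine ⟨H152R3.W ×ˢ univ, fun q => H152R3.Phi q.1,
    fun q => (((σ q.1)⁻¹ • H152R3.xi q.1, 0) : X), H152R3.isOpen_W.prod isOpen_univ,
    ⟨hW, mem_univ _⟩, ?_, ?_, ?_, ?_, ?_⟩
  · intro q hq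
    exact ⟨H152R3.W_sub_U hq.1, mem_univ _⟩
  · intro q hq
    exact (ContDiffAt.comp (g := H152R3.Phi) (f := fun q : X => q.1) q (H152R3.cd_Phi hq.1)
      contDiffAt_fst).contDiffWithinAt
  · intro q hq
    rw [H152R3.Phi_neg_iff hq.1]
    constructor
    · intro h; exact h.1
    · intro h; exact ⟨h, mem_univ _⟩
  · intro q hq
    have hs := hσ.pos (H152R3.W_sub_U hq.1)
    have hN := H152R3.Nn_pos (H152R3.W_pos hq.1).1 ‖q.1.2‖
    constructor
    · rw [g_self, nsq_smul, H152R3.nsq_xi hq.1]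
      field_simp
      ring
    · refine ⟨σ q.1 / H152R3.Nn ‖q.1.1‖ ‖q.1.2‖, by positivity, ?_⟩
      intro v
      rw [dirDeriv_Phi hq.1]
      change dform (σ q.1 ^ 2) (phi σ q.1 ^ 2) (((σ q.1)⁻¹ • H152R3.xi q.1, 0) : X) v = _
      rw [dform_apply]
      simp only [Prod.smul_fst, Prod.smul_snd, inner_smul_left, conj_trivial]
      rw [← mul_add, inner_xi hq.1]
      field_simp
      ring
  · intro q hq h0
    have hc := (Phi_zero_iff hq.1).1 h0
    have hU := H152R3.W_sub_U hq.1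
    have hs := hσ.pos hU
    have hw := H152R3.wt_pos q.1
    have e1 : H152R3.hw q.1 = σ q.1 :=
      le_antisymm (hσ.inside q.1 hq.1 hc.le).1 (hσ.outside q.1 hq.1 hc.symm.le)
    have h1 : (fun q' => (metricOf hσ).dens q' • (((σ q'.1)⁻¹ • H152R3.xi q'.1, 0) : X)) =ᶠ[𝓝 q]
        (fun q' : X => (((fun w => H152R3.wt w • H152R3.xi w) q'.1, 0) : X)) := by
      have hO : ∀ᶠ q' : X in 𝓝 q, q'.1 ∈ H152R3.U :=
        continuous_fst.continuousAt.eventually (H152R3.isOpen_U.mem_nhds hU)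
      filter_upwards [hO] with q' hq'
      rw [dens_eq hσ hq']
      have hs := (hσ.pos hq').ne'
      simp only [Prod.smul_mk, smul_zero, smul_smul]
      congr 2
      field_simp
    have hdF : DifferentiableAt ℝ (fun w => H152R3.wt w • H152R3.xi w) q.1 :=
      (H152R3.cd_wxi hq.1).differentiableAt (by simp)
    have h2 := div_mul_dens hσ (Z := fun q' => (((σ q'.1)⁻¹ • H152R3.xi q'.1, 0) : X)) hU
      ((differentiableAt_lift hdF).congr_of_eventuallyEq h1)
    rw [h1.fderiv_eq, trace_fst (F := fun w => H152R3.wt w • H152R3.xi w) hdF,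
      H152R3.dv_wt_xi hq.1, e1, dens_eq hσ hU] at h2
    have h3 : H152R3.wt q.1 * σ q.1 ≠ 0 := (mul_pos hw hs).ne'
    exact mul_right_cancel₀ h3 (by rw [h2, one_mul])

/-! ### The singular curve -/

/-- Parametrisation of the boundary curve near the origin. -/
def xs (s : ℝ) : ℝ := -(1 / 2) + √(1 / 4 + (s - s ^ 2))

lemma xs_zero : xs 0 = 0 := by
  unfold xs
  have : √(1 / 4 + (0 - 0 ^ 2)) = (1 / 2 : ℝ) := by
    rw [show (1 / 4 + (0 - 0 ^ 2) : ℝ) = (1 / 2) ^ 2 by norm_num]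
    exact Real.sqrt_sq (by norm_num)
  rw [this]; norm_num

lemma hasDerivAt_xs : HasDerivAt xs 1 0 := by
  have h1 : HasDerivAt (fun s : ℝ => 1 / 4 + (s - s ^ 2)) 1 0 := by
    have h2 := ((hasDerivAt_id (0 : ℝ)).sub ((hasDerivAt_id (0 : ℝ)).pow 2)).const_add (1 / 4)
    refine HasDerivAt.congr_deriv (f := fun s : ℝ => 1 / 4 + (s - s ^ 2)) h2 ?_
    simp
  have h3 := (h1.sqrt (by norm_num)).const_add (-(1 / 2))
  refine HasDerivAt.congr_deriv (f := xs) h3 ?_
  have : √(1 / 4 + (0 - 0 ^ 2)) = (1 / 2 : ℝ) := by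
    rw [show (1 / 4 + (0 - 0 ^ 2) : ℝ) = (1 / 2) ^ 2 by norm_num]
    exact Real.sqrt_sq (by norm_num)
  rw [this]; norm_num

lemma xs_curve {s : ℝ} (h0 : 0 ≤ s) (h1 : s < 1 / 2) :
    0 ≤ xs s ∧ H152R3.P (xs s) = H152R3.Q s := by
  have h2 : 0 ≤ 1 / 4 + (s - s ^ 2) := by nlinarith
  have h3 := Real.sq_sqrt h2
  constructor
  · unfold xs
    have : (1 / 2 : ℝ) ≤ √(1 / 4 + (s - s ^ 2)) := by
      apply Real.le_sqrt_of_sq_le
      nlinarith
    linarith
  · unfold H152R3.P H152R3.Q xs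
    nlinarith

lemma not_regular (t : ℝ) : ¬ IsRegularPoint H152R3.OmR ((0 : V), t) := by
  rintro ⟨O, F, hO, hp, hF, hd, hfr⟩
  set L := fderiv ℝ F ((0 : V), t) with hL
  have hFd : HasFDerivAt F L ((0 : V), t) :=
    (((hF _ hp).contDiffAt (hO.mem_nhds hp)).differentiableAt (by simp)).hasFDerivAt
  -- tangent directions of the cone
  have hA : ∀ a b : E7, ‖a‖ = 1 → ‖b‖ = 1 → L (((a, b), 0) : X) = 0 := by
    intro a b ha hb
    let c : ℝ → X := fun s => ((xs s • a, s • b), t)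
    have hc0 : c 0 = ((0 : V), t) := by simp [c, xs_zero]
    have hc : HasDerivAt c (((a, b), 0) : X) 0 := by
      have h1 : HasDerivAt (fun s => xs s • a) a 0 := by
        have := hasDerivAt_xs.smul_const a
        rwa [one_smul] at this
      have h2 : HasDerivAt (fun s : ℝ => s • b) b 0 := by
        have := (hasDerivAt_id (0 : ℝ)).smul_const b
        rwa [one_smul] at this
      exact (h1.prodMk h2).prodMk (hasDerivAt_const (0 : ℝ) t)
    have hFc : HasDerivAt (fun s => F (c s)) (L (((a, b), 0) : X)) 0 := by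
      have h1 : HasFDerivAt F L (c 0) := by rw [hc0]; exact hFd
      exact h1.comp_hasDerivAt 0 hc
    have hcont : ContinuousAt c 0 := hc.continuousAt
    have hev : ∀ᶠ s in 𝓝[≥] (0 : ℝ), F (c s) = 0 := by
      have h1 : ∀ᶠ s in 𝓝 (0 : ℝ), c s ∈ O := by
        apply hcont.eventually
        rw [hc0]; exact hO.mem_nhds hp
      have h2 : ∀ᶠ s in 𝓝 (0 : ℝ), s < 1 / 2 := gt_mem_nhds (by norm_num)
      filter_upwards [nhdsWithin_le_nhds h1, nhdsWithin_le_nhds h2, self_mem_nhdsWithin] with s hs1 hs2 hs3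
      have hs0 : 0 ≤ s := hs3
      obtain ⟨hx0, hx1⟩ := xs_curve hs0 hs2
      rw [← hfr (c s) hs1, mem_frontier_OmR]
      have hn2 : ‖(c s).1.2‖ = s := by
        change ‖s • b‖ = s
        rw [norm_smul, hb, mul_one, Real.norm_eq_abs, abs_of_nonneg hs0]
      have hn1 : ‖(c s).1.1‖ = xs s := by
        change ‖xs s • a‖ = xs s
        rw [norm_smul, ha, mul_one, Real.norm_eq_abs, abs_of_nonneg hx0]
      have hU : (c s).1 ∈ H152R3.U := by
        change ‖(c s).1.2‖ < 1 / 2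
        rw [hn2]; exact hs2
      rw [mem_frontier_iff hU, hn1, hn2]
      exact hx1
    have h1 : HasDerivWithinAt (fun s => F (c s)) (L (((a, b), 0) : X)) (Ici 0) 0 :=
      hFc.hasDerivWithinAt
    have h2 : HasDerivWithinAt (fun s => F (c s)) 0 (Ici 0) 0 := by
      have h3 : HasDerivWithinAt (fun _ : ℝ => (0 : ℝ)) 0 (Ici 0) 0 := hasDerivWithinAt_const _ _ _
      exact h3.congr_of_eventuallyEq hev (hev.self_of_nhdsWithin (mem_Ici.2 le_rfl))
    exact (uniqueDiffWithinAt_Ici (0 : ℝ)).eq_deriv _ h1 h2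
  have hB : L (((0, 0), 1) : X) = 0 := by
    let c : ℝ → X := fun s => ((0 : V), t + s)
    have hc0 : c 0 = ((0 : V), t) := by simp [c]
    have hc : HasDerivAt c (((0, 0), 1) : X) 0 := by
      have h1 : HasDerivAt (fun s : ℝ => t + s) 1 0 := (hasDerivAt_id (0 : ℝ)).const_add t
      exact (hasDerivAt_const (0 : ℝ) (0 : V)).prodMk h1
    have hFc : HasDerivAt (fun s => F (c s)) (L (((0, 0), 1) : X)) 0 := by
      have h1 : HasFDerivAt F L (c 0) := by rw [hc0]; exact hFd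
      exact h1.comp_hasDerivAt 0 hc
    have hev : ∀ᶠ s in 𝓝 (0 : ℝ), F (c s) = 0 := by
      have h1 : ∀ᶠ s in 𝓝 (0 : ℝ), c s ∈ O := by
        apply hc.continuousAt.eventually
        rw [hc0]; exact hO.mem_nhds hp
      filter_upwards [h1] with s hs1
      rw [← hfr (c s) hs1, mem_frontier_OmR]
      have hU : (c s).1 ∈ H152R3.U := by
        change ‖(0 : E7)‖ < 1 / 2
        rw [norm_zero]; norm_num
      rw [mem_frontier_iff hU]
      change H152R3.P ‖(0 : E7)‖ = H152R3.Q ‖(0 : E7)‖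
      rw [norm_zero]
      unfold H152R3.P H152R3.Q
      norm_num
    have h2 : HasDerivAt (fun s => F (c s)) 0 0 :=
      (hasDerivAt_const (0 : ℝ) (0 : ℝ)).congr_of_eventuallyEq hev
    exact hFc.unique h2
  -- all vectors
  let e : E7 := EuclideanSpace.single 0 1
  have he : ‖e‖ = 1 := by simp [e]
  have hC : ∀ a : E7, ‖a‖ = 1 → L (((a, 0), 0) : X) = 0 ∧ L (((0, a), 0) : X) = 0 := by
    intro a ha
    constructor
    · have h1 := hA a e ha he
      have h2 := hA a (-e) ha (by rw [norm_neg]; exact he)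
      have h3 : (((a, e), 0) : X) + (((a, -e), 0) : X) = (2 : ℝ) • (((a, 0), 0) : X) := by
        ext <;> simp [two_mul]
      have h4 := map_add L (((a, e), 0) : X) (((a, -e), 0) : X)
      rw [h3, h1, h2, map_smul, smul_eq_mul] at h4
      linarith
    · have h1 := hA e a he ha
      have h2 := hA (-e) a (by rw [norm_neg]; exact he) ha
      have h3 : (((e, a), 0) : X) + (((-e, a), 0) : X) = (2 : ℝ) • (((0, a), 0) : X) := by
        ext <;> simp [two_mul]
      have h4 := map_add L (((e, a), 0) : X) (((-e, a), 0) : X)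
      rw [h3, h1, h2, map_smul, smul_eq_mul] at h4
      linarith
  have hD : ∀ a : E7, L (((a, 0), 0) : X) = 0 ∧ L (((0, a), 0) : X) = 0 := by
    intro a
    by_cases ha : a = 0
    · subst ha
      exact ⟨map_zero L, map_zero L⟩
    · have hn : ‖a‖ ≠ 0 := norm_ne_zero_iff.2 ha
      obtain ⟨h1, h2⟩ := hC (‖a‖⁻¹ • a) (by rw [norm_smul, norm_inv, norm_norm]; field_simp)
      have e1 : (((a, 0), 0) : X) = ‖a‖ • (((‖a‖⁻¹ • a, 0), 0) : X) := by
        simp only [Prod.smul_mk, smul_zero, smul_smul]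
        rw [mul_inv_cancel₀ hn, one_smul]
      have e2 : (((0, a), 0) : X) = ‖a‖ • (((0, ‖a‖⁻¹ • a), 0) : X) := by
        simp only [Prod.smul_mk, smul_zero, smul_smul]
        rw [mul_inv_cancel₀ hn, one_smul]
      rw [e1, e2, map_smul, map_smul, h1, h2]
      simp
  obtain ⟨v, hv0⟩ := hd _ hp
  apply hv0
  rw [dirDeriv_eq hFd.differentiableAt]
  have hv : v = (((v.1.1, 0), 0) : X) + (((0, v.1.2), 0) : X) + v.2 • (((0, 0), 1) : X) := by
    ext <;> simp
  change L v = 0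
  rw [hv, map_add, map_add, map_smul, (hD _).1, (hD _).2, hB]
  simp

/-! ### Completeness -/

lemma complete : (metricOf hσ).IsComplete := by
  intro T γ hγc hγU hγ
  have hγU' : ∀ s ∈ Ico 0 T, (γ s).1 ∈ H152R3.U := hγU
  let f : ℝ → ℝ := fun s => H152R3.rho ε (γ s).1
  refine ⟨{w : V | w ∈ H152R3.U ∧ H152R3.rho ε w ≤ f 0 + T}, H152R3.isCompact_rho hσ.hε _,
    fun w hw => hw.1, ?_⟩
  intro s hs
  refine ⟨hγU' s hs, ?_⟩
  have hfc : ContinuousOn f (Ico 0 T) := by
    intro r hr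
    have h1 : ContinuousAt (H152R3.rho ε) (γ r).1 := (H152R3.cd_rho ε (hγU' r hr)).continuousAt
    exact ContinuousAt.comp_continuousWithinAt (f := fun s => (γ s).1) (g := H152R3.rho ε) h1
      (hγc r hr).fst
  have hfd : ∀ r ∈ Ioo 0 T, ∃ y ≤ (1 : ℝ), HasDerivAt f y r := by
    intro r hr
    obtain ⟨v, hv1, hv2⟩ := hγ r hr
    have hU := hγU' r ⟨hr.1.le, hr.2⟩
    have h1 : HasFDerivAt (H152R3.rho ε) (fderiv ℝ (H152R3.rho ε) (γ r).1) (γ r).1 :=
      ((H152R3.cd_rho ε hU).differentiableAt (by simp)).hasFDerivAt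
    have h2 : HasDerivAt (fun s => (γ s).1) v.1 r :=
      (hasFDerivAt_fst (𝕜 := ℝ) (p := γ r)).comp_hasDerivAt r hv1
    refine ⟨fderiv ℝ (H152R3.rho ε) (γ r).1 v.1, ?_,
      HasFDerivAt.comp_hasDerivAt (f := fun s => (γ s).1) r h1 h2⟩
    have h3 := H152R3.fderiv_rho_le hσ.hε hU v.1
    have h4 := hσ.lower _ hU
    rw [g_self] at hv2
    have hs := hσ.pos hU
    have h5 : 0 ≤ phi σ (γ r).1 ^ 2 * v.2 ^ 2 := by positivity
    have h6 : (σ (γ r).1 * √(H152R3.nsq v.1)) ^ 2 ≤ 1 := by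
      rw [mul_pow, Real.sq_sqrt (H152R3.nsq_nonneg _)]
      linarith
    have h7 : σ (γ r).1 * √(H152R3.nsq v.1) ≤ 1 := by
      have h8 : 0 ≤ σ (γ r).1 * √(H152R3.nsq v.1) := by positivity
      nlinarith
    have h9 : H152R3.ell ε ‖(γ r).1.1‖ ‖(γ r).1.2‖ * √(H152R3.nsq v.1)
        ≤ σ (γ r).1 * √(H152R3.nsq v.1) := mul_le_mul_of_nonneg_right h4 (Real.sqrt_nonneg _)
    exact (le_abs_self _).trans (h3.trans (h9.trans h7))
  have hmv := Convex.image_sub_le_mul_sub_of_deriv_le (convex_Ico 0 T) hfc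
    (by
      intro r hr
      rw [interior_Ico] at hr
      obtain ⟨y, _, hy⟩ := hfd r hr
      exact hy.differentiableAt.differentiableWithinAt) (C := 1)
    (by
      intro r hr
      rw [interior_Ico] at hr
      obtain ⟨y, hy1, hy⟩ := hfd r hr
      rw [hy.deriv]; exact hy1)
  have hT : 0 < T := lt_of_le_of_lt hs.1 hs.2
  have h1 := hmv 0 ⟨le_rfl, hT⟩ s hs hs.1
  have h2 := hs.2
  change f s ≤ f 0 + T
  linarith

/-! ### Volumes -/

lemma Om_nonempty_interior : (0 : ENNReal) < (volume : Measure V) H152R3.Om := by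
  apply H152R3.isOpen_Om.measure_pos volume
  refine ⟨((0 : E7), (EuclideanSpace.single 0 (1 / 4 : ℝ) : E7)), ?_, ?_⟩
  · change ‖(EuclideanSpace.single 0 (1 / 4 : ℝ) : E7)‖ < 1 / 2
    rw [PiLp.norm_single]; norm_num
  · change H152R3.P ‖(0 : E7)‖ < H152R3.Q ‖(EuclideanSpace.single 0 (1 / 4 : ℝ) : E7)‖
    rw [PiLp.norm_single, norm_zero]
    unfold H152R3.P H152R3.Q
    norm_num

/-- The complement of the closed region. -/
def Oc : Set V := {w | w ∈ H152R3.U ∧ H152R3.Q ‖w.2‖ < H152R3.P ‖w.1‖}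

lemma isOpen_Oc : IsOpen Oc :=
  H152R3.isOpen_U.inter (isOpen_lt (H152R3.continuous_Q.comp continuous_snd.norm)
    (H152R3.continuous_P.comp continuous_fst.norm))

lemma Oc_pos : (0 : ENNReal) < (volume : Measure V) Oc := by
  apply isOpen_Oc.measure_pos volume
  refine ⟨((EuclideanSpace.single 0 (1 : ℝ) : E7), (0 : E7)), ?_, ?_⟩
  · change ‖(0 : E7)‖ < 1 / 2
    rw [norm_zero]; norm_num
  · change H152R3.Q ‖(0 : E7)‖ < H152R3.P ‖(EuclideanSpace.single 0 (1 : ℝ) : E7)‖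
    rw [PiLp.norm_single, norm_zero]
    unfold H152R3.P H152R3.Q
    norm_num

lemma vol_pos_of (hσ : H152R3.Good ε C σ) {S : Set V} (hS : MeasurableSet S) (hSU : S ⊆ H152R3.U)
    (hpos : (0 : ENNReal) < (volume : Measure V) S) :
    0 < ∫⁻ p in S ×ˢ (univ : Set ℝ), ENNReal.ofReal (H152R3.wt p.1 * σ p.1) ∂H152R3.nu := by
  have hmeas : AEMeasurable (fun p : X => ENNReal.ofReal (H152R3.wt p.1 * σ p.1)) H152R3.nu :=
    (hσ.meas_ws.comp_fst (ν := (volume : Measure ℝ).restrict (Ico 0 1))).aemeasurable.ennreal_ofReal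
  rw [pos_iff_ne_zero]
  intro h0
  rw [lintegral_eq_zero_iff' hmeas.restrict] at h0
  have h3 : H152R3.nu.restrict (S ×ˢ univ) (S ×ˢ univ) ≠ 0 := by
    rw [Measure.restrict_apply_self, H152R3.nu, Measure.prod_prod, measure_univ, mul_one,
      Measure.restrict_apply hS, inter_eq_self_of_subset_left hSU]
    exact hpos.ne'
  apply h3
  refine measure_mono_null ?_ (ae_iff.1 h0)
  intro p hp
  have h2 := mul_pos (H152R3.wt_pos p.1) (hσ.pos (hSU hp.1))
  exact (ENNReal.ofReal_pos.2 h2).ne'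

lemma vol_OmR_lt_top : (metricOf hσ).vol H152R3.OmR < ⊤ := by
  rw [vol_eq hσ H152R3.measurableSet_OmR]
  have h1 : IntegrableOn (fun p : X => H152R3.wt p.1 * σ p.1) H152R3.OmR H152R3.nu :=
    H152R3.intOn_OmR hσ.int_ws
  exact (lintegral_mono (fun p => by
    rw [Real.enorm_eq_ofReal_abs]
    exact ENNReal.ofReal_le_ofReal (le_abs_self _))).trans_lt h1.2

lemma vol_lt : (metricOf hσ).vol H152R3.OmR < (metricOf hσ).vol ((metricOf hσ).U ×ˢ univ) := by
  have hm1 := H152R3.measurableSet_OmR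
  have hm2 : MeasurableSet (Oc ×ˢ (univ : Set ℝ)) := isOpen_Oc.measurableSet.prod MeasurableSet.univ
  have hm3 : MeasurableSet (H152R3.U ×ˢ (univ : Set ℝ)) :=
    H152R3.isOpen_U.measurableSet.prod MeasurableSet.univ
  change _ < (metricOf hσ).vol (H152R3.U ×ˢ univ)
  have h1 : (metricOf hσ).vol (H152R3.OmR ∪ Oc ×ˢ univ) ≤ (metricOf hσ).vol (H152R3.U ×ˢ univ) := by
    rw [vol_eq hσ (hm1.union hm2), vol_eq hσ hm3]
    apply lintegral_mono_set
    rintro p (hp | hp)
    · exact ⟨hp.1.1, mem_univ _⟩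
    · exact ⟨hp.1.1, mem_univ _⟩
  have hdisj : Disjoint H152R3.OmR (Oc ×ˢ (univ : Set ℝ)) := by
    rw [Set.disjoint_left]
    rintro p hp1 hp2
    exact lt_asymm hp1.1.2 hp2.1.2
  have h2 : (metricOf hσ).vol (H152R3.OmR ∪ Oc ×ˢ univ) = (metricOf hσ).vol H152R3.OmR
      + ∫⁻ p in Oc ×ˢ (univ : Set ℝ), ENNReal.ofReal (H152R3.wt p.1 * σ p.1) ∂H152R3.nu := by
    rw [vol_eq hσ (hm1.union hm2), vol_eq hσ hm1, lintegral_union hm2 hdisj]
  have h3 := vol_pos_of hσ isOpen_Oc.measurableSet (fun w hw => hw.1) Oc_pos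
  have h4 := vol_OmR_lt_top hσ
  refine lt_of_lt_of_le ?_ h1
  rw [h2]
  exact ENNReal.lt_add_right h4.ne h3.ne'

lemma vol_pos : 0 < (metricOf hσ).vol H152R3.OmR := by
  rw [vol_eq hσ H152R3.measurableSet_OmR]
  exact vol_pos_of hσ H152R3.isOpen_Om.measurableSet (fun w hw => hw.1) Om_nonempty_interior

lemma isSubset_OmR : (metricOf hσ).IsSubset H152R3.OmR :=
  ⟨H152R3.measurableSet_OmR, fun _ hp => hp.1.1, fun _ _ => Iff.rfl⟩

lemma isIsoperimetric : (metricOf hσ).IsIsoperimetric H152R3.OmR where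
  isSubset := isSubset_OmR hσ
  vol_pos := vol_pos hσ
  vol_lt := vol_lt hσ
  perimeter_lt := (perimeter_upper hσ).trans_lt ENNReal.ofReal_lt_top
  minimal := fun _ hE hvol => (perimeter_upper hσ).trans (perimeter_lower hσ hE hvol)

/-- There are a complete Riemannian 15-manifold `M = (U × ℝ)/ℤ` and an open isoperimetric region
`Ω` of finite volume in `M` whose singular set is the closed curve `{0} × (ℝ/ℤ)` and whose boundary
has mean curvature `1` at every regular point. -/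
theorem result : ∃ (M : Metric) (Ω : Set X), M.IsComplete ∧ IsOpen Ω ∧ M.IsIsoperimetric Ω ∧
    (∀ p ∈ frontier Ω, p.1 ∈ M.U → IsRegularPoint Ω p → M.HasMeanCurvature Ω p 1) ∧
    {p : X | p ∈ frontier Ω ∧ p.1 ∈ M.U ∧ ¬ IsRegularPoint Ω p} = {p : X | p.1 = 0} := by
  obtain ⟨ε, C, σ, hσ⟩ := H152R3.exists_good
  have hcase : ∀ p : X, p ∈ frontier H152R3.OmR → p.1 ∈ H152R3.U → p.1 = 0 ∨ p.1 ∈ H152R3.W := by
    intro p hp hU
    exact H152R3.curve_cases hU ((mem_frontier_iff hU).1 (mem_frontier_OmR.1 hp))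
  refine ⟨metricOf hσ, H152R3.OmR, complete hσ, H152R3.isOpen_Om.prod isOpen_univ,
    isIsoperimetric hσ, ?_, ?_⟩
  · intro p hp hU hreg
    rcases hcase p hp hU with h0 | hW
    · exfalso
      have h1 : p = ((0 : V), p.2) := Prod.ext h0 rfl
      rw [h1] at hreg
      exact not_regular _ hreg
    · exact hasMC hσ hW
  · ext p
    constructor
    · rintro ⟨hp, hU, hn⟩
      rcases hcase p hp hU with h0 | hW
      · exact h0
      · exact absurd (regular_of_W hW) hn
    · intro h0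
      have h1 : p = ((0 : V), p.2) := Prod.ext h0 rfl
      have hU : p.1 ∈ H152R3.U := by
        rw [h0]
        change ‖(0 : E7)‖ < 1 / 2
        rw [norm_zero]; norm_num
      refine ⟨?_, hU, ?_⟩
      · rw [mem_frontier_OmR, mem_frontier_iff hU, h0]
        change H152R3.P ‖(0 : E7)‖ = H152R3.Q ‖(0 : E7)‖
        rw [norm_zero]
        unfold H152R3.P H152R3.Q
        norm_num
      · rw [h1]; exact not_regular _

end

end Pool.Agent.Results.MP_89119d_gt.SingularCMC
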